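import Pool.Agent.MSet.Down

/-!
# Products with the curves
-/

set_option autoImplicit false
set_option linter.unusedSectionVars false

open CategoryTheory MonoidalCategory Limits
open Pool.Agent.Helper15.Murre Pool.Agent.Helper58.MAD Pool.Agent.Helper90.MAD Pool.Agent.Mid
open Pool.Agent.AbAlg

universe w v u

namespace Pool.Agent.MAlg

section one

variable {C : Type u} [Category.{v} C] [Preadditive C] [Linear ℚ C]
  [MonoidalCategory C] [SymmetricCategory C] [MonoidalPreadditive C] [MonoidalLinear ℚ C]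
  [RigidCategory C] [HasBinaryBiproducts C] [IsIdempotentComplete C]
  {F : Type w} [Field F] {W : MotivicHomology C F}

/-- one weight, one Chow-Kunneth decomposition -/
theorem kill_of_one (hN : NilHom W) {Z : Fam W} {N : C} {l a : ℤ} (D : CK W N)
    (h : ∀ α ∈ Z.Z l N, α ≫ D.p a = 0) : Kill Z N l (fun j => j = a) := by
  intro f hf hf0 α hα
  have hb : (α ≫ f) ≫ D.p a = 0 := h _ (Z.comp α f hα)
  apply nil_kill hN (α ≫ f) (f ≫ (𝟙 N - D.p a) ≫ f)
  · apply W.hext
    intro j x hx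
    rw [W.map_comp_apply]
    by_cases hj : j = a
    · rw [W.map_comp_apply, map_one_sub, D.homology a j _ (W.map_gr _ _ _ hx), if_pos hj,
        sub_self, map_zero]
      rfl
    · rw [hf0 j hj x hx, map_zero]
      rfl
  · have h1 : (α ≫ f) ≫ f = α ≫ f := by rw [Category.assoc, hf]
    rw [← Category.assoc, h1, ← Category.assoc, Preadditive.comp_sub, hb, Category.comp_id,
      sub_zero, h1]

/-- the product decomposition of `N ⊗ h₁(X)` -/
noncomputable def prodCK {N : C} (D : CK W N) {h : C} (hh : W.gr h 1 = ⊤) : CK W (N ⊗ h) :=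
  D.tensor (CK.single h 1 (fun x => by rw [hh]; trivial))

theorem prodCK_p {N : C} (D : CK W N) {h : C} (hh : W.gr h 1 = ⊤) (i : ℤ) :
    (prodCK D hh).p (i + 1) = D.p i ▷ h := by
  unfold prodCK
  rw [CK.tensor_p]
  have h0 : ∀ j : ℤ, j ≠ 1 → (CK.single h 1 (fun x => by rw [hh]; trivial : ∀ x : W.H.obj h,
      x ∈ W.gr h 1)).p j = 0 := fun j hj => if_neg hj
  by_cases hi : i ∈ D.s
  · rw [Finset.sum_eq_single_of_mem i hi]
    · have h1 : i + 1 - i = 1 := by ring
      rw [h1, CK.single_p, tensorHom_id]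
    · intro b _ hb
      rw [h0 _ (by omega), MonoidalPreadditive.tensor_zero]
  · rw [D.p_eq_zero hi, MonoidalPreadditive.zero_whiskerRight]
    refine Finset.sum_eq_zero fun b hb => ?_
    have hbi : b ≠ i := fun h => hi (h ▸ hb)
    rw [h0 _ (by omega), MonoidalPreadditive.tensor_zero]

end one

variable {F : Type w} [Field F] {G : Geometry.{w, v, u} F}

/-- (B) for the products `Z × X`, `dim Z = 2m`, in the critical case -/
def ProdB (E : Families G) (m : ℕ) : Prop :=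
  ∀ (k : G.Fld) (Z : G.Var k) (X : E.Curve k), G.Closed k → G.dim Z = 2 * m →
    ∀ D : CK (G.mot k).W (G.h Z ⊗ E.h₁ X), D.CH (m + 1) (2 * m + 1) = ⊥

theorem middleAlg_of_prodB (E : Families G) {m : ℕ} (h : ProdB E m) : MiddleAlg E m := by
  intro k Z hk hZ D
  rw [eq_bot_iff]
  rintro α ⟨h1, h2⟩
  have h3 := algCyc_kill (dual_motives E k) m (D.p (2 * m)) (D.idem _) (by
    rintro _ ⟨X, rfl⟩ β
    have h5 := h k Z X hk hZ (prodCK D (E.odd X))
    have h6 := (prodCK D (E.odd X)).comp_p_mem β (2 * m + 1)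
    rw [h5, prodCK_p] at h6
    simpa using h6) α h2
  rw [D.mem_CH.1 h1] at h3
  simpa using h3

section levels

variable (hS : Sign G) (hN : Nilpotent G)

include hS hN

theorem prod_zero (h : Lift G) (E : Families G) {m : ℕ} (hM : MiddleAlg E m) {k : G.Fld}
    (hk : G.Closed k) (Z : G.Var k) (hZ : G.dim Z = 2 * m) (X : E.Curve k)
    (D : CK (G.mot k).W (G.h Z)) (α : (G.mot k).W.CH ((m : ℤ) + 1) (G.h Z ⊗ E.h₁ X)) :
    α ≫ (D.p (2 * m) ▷ E.h₁ X) = 0 := by
  have hC : ∀ j < m, Crit G j := fun j hj =>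
    crit_of_alg E hS hN j (fun i hi => alg_le hS hN h E hM i (by omega))
  obtain ⟨K, Φ, X', hK, ⟨B⟩, ⟨P⟩, hcl⟩ := E.generic hk X
  obtain ⟨Z', hdim, ⟨e⟩⟩ := hcl Z
  have hadd := B.additive
  have hpp := D.idem (2 * (m : ℤ))
  have hp0 : ∀ j, j ≠ 2 * (m : ℤ) → ∀ x ∈ (G.mot k).W.gr (G.h Z) j,
      ((G.mot k).W.H.map (D.p (2 * m))).hom x = 0 := fun j hj x hx => by
    rw [D.homology _ _ x hx, if_neg hj]
  generalize D.p (2 * (m : ℤ)) = p at hpp hp0 ⊢
  have h1 : Kill (algF E K) (Φ.obj (G.h Z)) m (fun j => j = 2 * (m : ℤ)) :=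
    Kill.ofIso e (alg_mid E hS hN hM hK Z' (by rw [hdim]; exact hZ))
  have h3 : (Φ.map α ≫ (P.car.iso (G.h Z)).hom ≫ (Φ.obj (G.h Z) ◁ P.ξ)) ≫
      (Φ.map p ▷ (G.mot K).W.T 1) = 0 := by
    refine (h1.twist 1).kill (A := Φ.obj ((G.mot k).W.T ((m : ℤ) + 1))) ?_ ?_
      (B.tate ((m : ℤ) + 1)) _ ?_
    · rw [← comp_whiskerRight, ← Φ.map_comp, hpp]
    · intro j hj
      exact tw_zero _ (bc_zero B (hp0 _ (by omega)))
    · have h4 := algCyc_restrict (W := (G.mot K).W) (show E.h₁ X' ∈ E.motives K from ⟨X', rfl⟩)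
        (E.dual X') (Φ.obj (G.h Z)) ((m : ℤ) + 1)
        ((B.tate ((m : ℤ) + 1)).hom ≫ Φ.map α ≫ (P.car.iso (G.h Z)).hom) P.ξ
      simp only [Category.assoc] at h4
      exact h4
  have h5 : Φ.map (α ≫ (p ▷ E.h₁ X)) ≫ (P.car.iso (G.h Z)).hom ≫
      (Φ.obj (G.h Z) ◁ P.ξ) = 0 := by
    rw [← h3, Φ.map_comp]
    simp only [Category.assoc]
    rw [whisker_exchange, ← Category.assoc (P.car.iso (G.h Z)).hom, ← P.car.natural,
      Category.assoc]
  have h6 := P.localisation (G.h Z) _ (α ≫ (p ▷ E.h₁ X)) h5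
  have h7 : α ≫ (p ▷ E.h₁ X) = (α ≫ (p ▷ E.h₁ X)) ≫ (p ▷ E.h₁ X) := by
    rw [Category.assoc, ← comp_whiskerRight, hpp]
  have hv := (van_of_crit G hS hN m hC k Z ((m : ℤ) + 1) (Or.inr (by omega))).twist 0
  rw [add_zero] at hv
  rw [h7]
  generalize α ≫ (p ▷ E.h₁ X) = w at h6 ⊢
  clear h7 h5 h3
  induction h6 using Submodule.span_induction with
  | mem x hx =>
    obtain ⟨i, β, rfl⟩ := hx
    rw [Category.assoc, whisker_exchange, ← Category.assoc]
    have h8 : β ≫ (p ▷ (G.mot k).W.T 0) = 0 := by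
      refine hv _ (by rw [← comp_whiskerRight, hpp]) (fun j hj => ?_) β
      exact tw_zero _ (hp0 _ (by omega))
    rw [h8, zero_comp]
  | zero => rw [zero_comp]
  | add x y _ _ hx hy => rw [Preadditive.add_comp, hx, hy, add_zero]
  | smul q x _ hx => rw [Linear.smul_comp, hx, smul_zero]

theorem prodB_of_middleAlg (h : Lift G) (E : Families G) {m : ℕ} (hM : MiddleAlg E m) :
    ProdB E m := by
  intro k Z X hk hZ D'
  obtain ⟨D⟩ := murreA_all G hS hN k (G.h Z)
  have h1 : Kill (topFam (G.mot k).W) (G.h Z ⊗ E.h₁ X) ((m : ℤ) + 1)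
      (fun j => j = 2 * (m : ℤ) + 1) :=
    kill_of_one (hN k) (prodCK D (E.odd X)) (fun α _ => by
      rw [prodCK_p]
      exact prod_zero hS hN h E hM hk Z hZ X D α)
  rw [eq_bot_iff]
  intro α hα
  have h2 := h1.CK D' rfl α trivial
  rw [D'.mem_CH.1 hα] at h2
  simpa using h2

end levels

end Pool.Agent.MAlg
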