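import Pool.Agent.MSet.Defs
import Pool.Agent.MSet.Prod

/-!
# Comparison with the setting of `Pool.Agent.MAlg`
-/

set_option autoImplicit false

open CategoryTheory MonoidalCategory Limits
open Pool.Agent.Helper15.Murre

universe w v u

namespace Pool.Agent.MSet

section one

variable {C : Type u} [Category.{v} C] [Preadditive C] [Linear ℚ C]
  [MonoidalCategory C] [SymmetricCategory C] [RigidCategory C] {F : Type w} [Field F]
  {W : MotivicHomology C F} {M N : C}

theorem act_val (f : M ⟶ N) (j : ℤ) (x : Hj W M j) : (act W f j x).1 = (W.H.map f).hom x.1 := rfl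

theorem injH {f : M ⟶ N} {j : ℤ} (h : Function.Injective (act W f j)) :
    Helper58.MAD.InjH W f j := by
  intro x hx h0
  have h1 : act W f j ⟨x, hx⟩ = act W f j ⟨0, Submodule.zero_mem _⟩ := by
    apply Subtype.ext
    rw [act_val, act_val]
    simp only [map_zero]
    exact h0
  exact congrArg Subtype.val (h h1)

theorem surjH {f : M ⟶ N} {j : ℤ} (h : Function.Surjective (act W f j)) :
    Helper58.MAD.SurjH W f j := by
  intro y hy
  obtain ⟨x, hx⟩ := h ⟨y, hy⟩
  exact ⟨x.1, x.2, congrArg Subtype.val hx⟩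

theorem kerH {f : M ⟶ N} {j : ℤ} (h : ¬ Function.Injective (act W f j)) :
    Helper58.MAD.KerH W f j := by
  by_contra hk
  apply h
  intro x y hxy
  by_contra hne
  apply hk
  refine ⟨x.1 - y.1, Submodule.sub_mem _ x.2 y.2, ?_, ?_⟩
  · intro h0
    exact hne (Subtype.ext (sub_eq_zero.mp h0))
  · rw [map_sub, sub_eq_zero]
    exact congrArg Subtype.val hxy

theorem zeroH_iff {f : M ⟶ N} {j : ℤ} :
    ZeroH W f j ↔ ∀ x ∈ W.gr M j, (W.H.map f).hom x = 0 :=
  ⟨fun h x hx => h ⟨x, hx⟩, fun h x => h x.1 x.2⟩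

theorem map_eq_zero_iff {f : M ⟶ N} : W.H.map f = 0 ↔ ∀ j, ZeroH W f j := by
  constructor
  · intro h j
    rw [zeroH_iff]
    intro x _
    rw [h]
    rfl
  · intro h
    have h1 : (⊤ : Submodule F (W.H.obj M)) ≤ LinearMap.ker (W.H.map f).hom := by
      rw [← (W.isInternal M).submodule_iSup_eq_top, iSup_le_iff]
      intro j x hx
      rw [LinearMap.mem_ker]
      exact zeroH_iff.mp (h j) x hx
    ext x
    exact LinearMap.mem_ker.mp (h1 (Submodule.mem_top (x := x)))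

theorem gr_eq_bot {j : ℤ} (h : Subsingleton (Hj W M j)) : W.gr M j = ⊥ := by
  rw [eq_bot_iff]
  intro x hx
  rw [Submodule.mem_bot]
  exact congrArg Subtype.val (h.elim ⟨x, hx⟩ ⟨0, Submodule.zero_mem _⟩)

theorem gr_eq_top {i : ℤ} (h : ∀ j, j ≠ i → Subsingleton (Hj W M j)) : W.gr M i = ⊤ := by
  rw [eq_top_iff, ← (W.isInternal M).submodule_iSup_eq_top, iSup_le_iff]
  intro j
  by_cases hj : j = i
  · rw [hj]
  · rw [gr_eq_bot (h j hj)]
    exact bot_le

theorem iterate_comp {X : C} (θ : N ⟶ N) (α : X ⟶ N) (r : ℕ) :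
    (· ≫ θ)^[r] α = α ≫ Helper58.MAD.pw θ r := by
  induction r with
  | zero => exact (Category.comp_id _).symm
  | succ r ih => rw [Function.iterate_succ_apply', ih, Helper58.MAD.pw, Category.assoc]

theorem nilHom_iff : NilHom W ↔ Helper58.MAD.NilHom W := by
  constructor
  · intro h N x hx
    obtain ⟨r, hr⟩ := h N x (map_eq_zero_iff.mp hx)
    rw [iterate_comp] at hr
    refine ⟨r + 1, ?_⟩
    have h1 : ∀ r : ℕ, Helper58.MAD.pw x (r + 1) = x ≫ Helper58.MAD.pw x r := by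
      intro r
      induction r with
      | zero => exact (Category.id_comp _).trans (Category.comp_id _).symm
      | succ r ih =>
        change Helper58.MAD.pw x (r + 1) ≫ x = x ≫ Helper58.MAD.pw x r ≫ x
        rw [ih, Category.assoc]
    rw [h1, hr]
  · intro h M x hx
    obtain ⟨r, hr⟩ := h M x (map_eq_zero_iff.mpr hx)
    refine ⟨r, ?_⟩
    rw [iterate_comp, hr, comp_zero]

theorem signConj_iff {N : C} :
    (∃ p : N ⟶ N, (∀ j, Even j → ∀ x, act W p j x = x) ∧ ∀ j, Odd j → ZeroH W p j) ↔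
      Helper58.MAD.SignConj W N := by
  constructor
  · rintro ⟨p, h1, h2⟩
    refine ⟨p, fun j x hx => ?_⟩
    split_ifs with hj
    · exact congrArg Subtype.val (h1 j hj ⟨x, hx⟩)
    · exact zeroH_iff.mp (h2 j (Int.not_even_iff_odd.mp hj)) x hx
  · rintro ⟨p, hp⟩
    refine ⟨p, fun j hj x => Subtype.ext ?_, fun j hj => zeroH_iff.mpr fun x hx => ?_⟩
    · rw [act_val, hp j x.1 x.2, if_pos hj]
    · rw [hp j x hx, if_neg (Int.not_even_iff_odd.mpr hj)]

/-- the members of a pencil -/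
noncomputable def Member.toMAD [MonoidalPreadditive C] {n : ℤ} {L : N ⟶ N ⊗ W.T 1} {V : C}
    (m : Member W N n L V) : Helper58.MAD.Member W N n L V where
  a := m.a
  b := m.b
  b_a := m.b_a
  e := 𝟙 V - m.e
  e_a := by rw [Preadditive.sub_comp, Category.id_comp, m.e_a, sub_self]
  split := by
    intro j hj x hx
    have := W.additive
    obtain ⟨y, hy⟩ := m.split j hj ⟨x, hx⟩
    refine ⟨y.1, y.2, ?_⟩
    have h1 : (W.H.map (m.e ▷ W.T 1)).hom x = (W.H.map m.b).hom y.1 := congrArg Subtype.val hy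
    have h2 : ((𝟙 V - m.e) ▷ W.T 1) = 𝟙 _ - m.e ▷ W.T 1 := by
      have h3 : (tensorRight (W.T 1)).map (𝟙 V - m.e) =
          (tensorRight (W.T 1)).map (𝟙 V) - (tensorRight (W.T 1)).map m.e := Functor.map_sub _
      rw [(tensorRight (W.T 1)).map_id] at h3
      exact h3
    rw [← h1, h2, Functor.map_sub, W.H.map_id]
    change x = _ + (x - (W.H.map (m.e ▷ W.T 1)).hom x)
    rw [add_sub_cancel]

end one

section two

variable {C : Type u} [Category.{v} C] [Preadditive C] [Linear ℚ C]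
  [MonoidalCategory C] [SymmetricCategory C] [RigidCategory C] {F : Type w} [Field F]
  {C' : Type u} [Category.{v} C'] [Preadditive C'] [Linear ℚ C']
  [MonoidalCategory C'] [SymmetricCategory C'] [RigidCategory C']
  {W : MotivicHomology C F} {W' : MotivicHomology C' F} {Φ : C ⥤ C'}

/-- the generic hyperplane section -/
noncomputable def HyperplaneSection.toMAD {N : C} {n : ℤ} {L : N ⟶ N ⊗ W.T 1} {P : C'}
    (S : HyperplaneSection W W' Φ N n L P) : Helper58.MAD.GenericSection W W' Φ N n L P where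
  a := S.a
  b := S.b
  b_a := S.b_a
  inj_b := fun j hj => injH (S.inj_b j hj)
  surj_b := fun j hj => surjH (S.surj_b j hj)
  surj_a := fun j hj => surjH (S.surj_a j hj)
  vanishing := kerH S.vanishing
  generic := S.generic

/-- base change and the product with a curve -/
def Carries.toMAlg {h : C} {h' : C'} (c : Carries Φ h h') : MAlg.Carries Φ h h' where
  iso := c.iso
  natural := c.natural

/-- the generic point of a curve -/
def GenericPoint.toMAlg {h : C} {h' : C'} (c : GenericPoint W W' Φ h h') :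
    MAlg.GenericPoint W W' Φ h h' where
  car := c.car.toMAlg
  ξ := c.ξ
  localisation := c.localisation

end two

variable {F : Type w} [Field F]

/-- the motives over one field -/
def Theory.toMotives (A : Theory.{w, v, u} F) : Helper58.MAD.Motives.{w, v, u} F where
  C := A.C
  W := A.W

namespace Setting

variable (G : Setting.{w, v, u} F)

/-- the motives and the varieties -/
def toVar : Helper58.MAD.Varieties.{w, v, u} F where
  Fld := G.Fld
  mot k := (G.th k).toMotives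
  Var k := (G.th k).V.Var
  dim Y := (G.th _).V.dim Y
  h Y := (G.th _).V.h Y
  dim_nonneg Y := (G.th _).V.dim_nonneg Y
  generated M := (G.th _).V.generated M
  gr_out Y j hj := gr_eq_bot ((G.th _).V.gr_out Y j hj)
  CH_above Y l hl α := ((G.th _).V.CH_above Y l hl).elim _ _
  Closed := G.Closed
  closure k := by
    obtain ⟨K, Φ, hK, h⟩ := G.closure k
    exact ⟨K, Φ, hK, h.bc, h.var⟩

theorem localisation {k K : G.Fld} {Φ : (G.th k).C ⥤ (G.th K).C} {Y : (G.th k).V.Var}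
    {X : (G.th K).V.Var} {L : (G.th k).V.h Y ⟶ (G.th k).V.h Y ⊗ (G.th k).W.T 1}
    (S : HyperplaneSection (G.th k).W (G.th K).W Φ ((G.th k).V.h Y) ((G.th k).V.dim Y) L
      ((G.th K).V.h X))
    (h : ∀ (l : ℤ) (α : (G.th k).W.CH l ((G.th k).V.h Y)), Φ.map α ≫ S.b = 0 →
      α ∈ Submodule.span ℚ {γ : (G.th k).W.CH l ((G.th k).V.h Y) | ∃ Z : (G.th k).V.Var,
        (G.th k).V.dim Z < (G.th k).V.dim Y ∧
        ∃ (m : Member (G.th k).W ((G.th k).V.h Y) ((G.th k).V.dim Y) L ((G.th k).V.h Z))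
          (ζ : (G.th k).W.CH l ((G.th k).V.h Z)), γ = ζ ≫ m.a}) :
    S.toMAD.Localisation (fun V : {V : (G.th k).V.Var // (G.th k).V.dim V < (G.th k).V.dim Y} =>
      (G.th k).V.h V.1) := by
  intro l α hα
  refine Submodule.span_mono ?_ (h l α hα)
  rintro γ ⟨Z, hZ, m, ζ, rfl⟩
  exact ⟨⟨Z, hZ⟩, m.toMAD, ζ, rfl⟩

/-- the geometry of hyperplane sections -/
def toGeometry : Helper58.MAD.Geometry.{w, v, u} F where
  toVarieties := G.toVar
  lefschetz := by
    intro k Y hY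
    obtain ⟨L, hL, ⟨K, Φ, X, S, hc, hX, hl⟩, ⟨K', Φ', X', hc', ⟨S'⟩⟩⟩ := G.lefschetz k Y hY
    obtain ⟨b⟩ := hc.bc
    obtain ⟨b'⟩ := hc'.bc
    exact ⟨L, ⟨injH hL.1, surjH hL.2⟩, ⟨⟨K, Φ, b, X, S.toMAD⟩, hX, fun hk => G.localisation S (hl hk)⟩,
      ⟨⟨K', Φ', b', X', S'.toMAD⟩⟩⟩

theorem poincare : Mid.Poincare G.toGeometry where
  square Y := (G.th _).V.square Y
  dual Y := (G.th _).V.dual Y

/-- the curves -/
def toCurves : MAlg.Curves G.toVar where
  Curve k := (G.th k).E.Curve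
  h₁ X := (G.th _).E.h₁ X
  odd X := gr_eq_top ((G.th _).E.odd X)
  dual X := (G.th _).E.dual X
  genus hk := G.genus _ hk
  times Y X hY := (G.th _).E.times Y X hY

/-- the curves and base change -/
def toFamilies : MAlg.Families G.toGeometry where
  toCurves := G.toCurves
  positive {k} Y := by
    obtain ⟨V, hV, ⟨R⟩⟩ := (G.th k).V.lift Y
    have h0 := (G.th k).V.dim_nonneg Y
    refine ⟨V, -1, ?_, ⟨?_⟩⟩
    · change 0 < (G.th k).V.dim V
      omega
    · exact (Retract.ofIso (untwist (G.th k).W ((G.th k).V.h Y) 1).symm).trans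
        (R.map (tensorRight ((G.th k).W.T (-1))))
  closure_stable k := by
    obtain ⟨K, Φ, hK, h⟩ := G.closure k
    refine ⟨K, Φ, hK, h.bc, fun X => ?_, h.var⟩
    obtain ⟨X', ⟨c⟩⟩ := h.curve X
    exact ⟨X', ⟨c.toMAlg⟩⟩
  lefschetz_stable := by
    intro k Y hk hY
    obtain ⟨L, hL, ⟨K, Φ, X, S, hc, hX, hl⟩, ⟨K', Φ', X', hc', ⟨S'⟩⟩⟩ := G.lefschetz k Y hY
    obtain ⟨b⟩ := hc.bc
    obtain ⟨b'⟩ := hc'.bc
    refine ⟨L, ⟨injH hL.1, surjH hL.2⟩, ⟨⟨K, Φ, b, X, S.toMAD⟩, hX, fun X => ?_,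
      G.localisation S (hl hk)⟩, ⟨⟨K', Φ', b', X', S'.toMAD⟩⟩⟩
    obtain ⟨X', ⟨c⟩⟩ := hc.curve X
    exact ⟨X', ⟨c.toMAlg⟩⟩
  generic := by
    intro k hk X
    obtain ⟨K, hK, Φ, X', hc, ⟨g⟩⟩ := G.generic k hk X
    exact ⟨K, Φ, X', hK, hc.bc, ⟨g.toMAlg⟩, hc.var⟩

theorem lift : MAlg.Lift G.toGeometry := fun _ Y => (G.th _).V.lift Y

theorem abc_iff : G.ABC ↔ MAlg.MurreABC G.toGeometry := Iff.rfl

theorem conjA_iff : G.ConjA ↔ Mid.ConjA G.toGeometry := Iff.rfl

theorem sign_iff : G.Sign ↔ Mid.Sign G.toGeometry :=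
  forall_congr' fun _ => forall_congr' fun _ => signConj_iff

theorem nilpotent_iff : G.Nilpotent ↔ Mid.Nilpotent G.toGeometry :=
  forall_congr' fun _ => nilHom_iff

theorem levelB_iff (m : ℕ) : G.LevelB m ↔ Mid.RangeB G.toGeometry m := Iff.rfl

theorem odd_iff (m : ℕ) : G.Odd m ↔ MAlg.OddB G.toGeometry m :=
  ⟨fun h k Z hk => h k hk Z, fun h k hk Z => h k Z hk⟩

theorem alg_eq {k : G.Fld} (l : ℤ) (M : (G.th k).C) :
    (G.th k).E.Alg l M = G.toFamilies.Alg (k := k) l M := by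
  apply congrArg (Submodule.span ℚ)
  ext γ
  constructor
  · rintro ⟨X, z, Γ, h⟩
    exact ⟨(G.th k).E.h₁ X, ⟨X, rfl⟩, z, Γ, h⟩
  · rintro ⟨_, ⟨X, rfl⟩, z, Γ, h⟩
    exact ⟨X, z, Γ, h⟩

theorem alg_iff (m : ℕ) : G.Alg m ↔ MAlg.MiddleAlg G.toFamilies m := by
  constructor
  · intro h k Z hk hZ D
    have h1 := h k hk Z hZ D
    rw [alg_eq] at h1
    exact h1
  · intro h k hk Z hZ D
    rw [alg_eq]
    exact h k Z hk hZ D

theorem product_iff (m : ℕ) : G.Product m ↔ MAlg.ProdB G.toFamilies m :=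
  ⟨fun h k Z X hk => h k hk Z X, fun h k hk Z X => h k Z X hk⟩

theorem oddN_iff (m : ℕ) : G.OddN m ↔ MAlg.OddNil G.toGeometry m := by
  constructor
  · intro h k Z hk hZ θ hθ α
    obtain ⟨r, hr⟩ := h k hk Z hZ θ (fun j hj => zeroH_iff.mpr (hθ j hj)) α
    exact ⟨r, by rw [← iterate_comp]; exact hr⟩
  · intro h k hk Z hZ θ hθ α
    obtain ⟨r, hr⟩ := h k Z hk hZ θ (fun j hj => zeroH_iff.mp (hθ j hj)) α
    exact ⟨r, by rw [iterate_comp]; exact hr⟩

theorem algN_iff (m : ℕ) : G.AlgN m ↔ MAlg.MiddleAlgNil G.toFamilies m := by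
  constructor
  · intro h k Z hk hZ θ hθ α hα
    obtain ⟨r, hr⟩ := h k hk Z hZ θ (fun j hj => zeroH_iff.mpr (hθ j hj)) α
      (by rw [alg_eq]; exact hα)
    exact ⟨r, by rw [← iterate_comp]; exact hr⟩
  · intro h k hk Z hZ θ hθ α hα
    rw [alg_eq] at hα
    obtain ⟨r, hr⟩ := h k Z hk hZ θ (fun j hj => zeroH_iff.mp (hθ j hj)) α hα
    exact ⟨r, by rw [iterate_comp]; exact hr⟩

end Setting

end Pool.Agent.MSet
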