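import Pool.Agent.Helper15.Murre.BC

/-!
# Murre's conjectures and algebraically trivial cycles: definitions

The setting: the Chow motives over all fields `k` (of one characteristic) with a Weil homology, the
smooth projective varieties, a family of curves, base change functors, and the classical facts
about hyperplane sections and about the generic point of a curve.
-/

set_option autoImplicit false

open CategoryTheory MonoidalCategory Limits
open Pool.Agent.Helper15.Murre

universe w v u

namespace Pool.Agent.MSet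

section one

variable {C : Type u} [Category.{v} C] [Preadditive C] [Linear ℚ C]
  [MonoidalCategory C] [SymmetricCategory C] [RigidCategory C] {F : Type w} [Field F]

/-- `H_j(M)` -/
def Hj (W : MotivicHomology C F) (M : C) (j : ℤ) : Type w := W.gr M j

/-- `f_* : H_j(M) ⟶ H_j(N)` -/
def act (W : MotivicHomology C F) {M N : C} (f : M ⟶ N) (j : ℤ) (x : Hj W M j) : Hj W N j :=
  ⟨(W.H.map f).hom x.1, W.map_gr f j x.1 x.2⟩

/-- `f_* : H_j(M) ⟶ H_j(N)` is zero. -/
def ZeroH (W : MotivicHomology C F) {M N : C} (f : M ⟶ N) (j : ℤ) : Prop :=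
  ∀ x : Hj W M j, (act W f j x).1 = 0

/-- The smooth projective varieties over a field `k` which are geometrically connected or of
dimension `0`; `C` stands for the Chow motives over `k`. -/
structure Varieties (W : MotivicHomology C F) where
  Var : Type u
  /-- the dimension -/
  dim : Var → ℤ
  /-- the motive `h(Y)` -/
  h : Var → C
  dim_nonneg : ∀ Y, 0 ≤ dim Y
  /-- every motive is a direct summand of some `h(Y)(m)` -/
  generated : ∀ M : C, ∃ (Y : Var) (m : ℤ), Nonempty (Retract M (h Y ⊗ W.T m))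
  /-- `H_j(Y) = 0` unless `0 ≤ j ≤ 2 dim Y` -/
  gr_out : ∀ (Y : Var) (j : ℤ), j < 0 ∨ 2 * dim Y < j → Subsingleton (Hj W (h Y) j)
  /-- `CH_l(Y) = 0` for `l > dim Y` -/
  CH_above : ∀ (Y : Var) (l : ℤ), dim Y < l → Subsingleton (W.CH l (h Y))
  /-- the variety `Y × Y` -/
  square : ∀ Y, ∃ V, dim V = 2 * dim Y ∧ Nonempty (h V ≅ h Y ⊗ h Y)
  /-- Poincare duality: `h(Y)ᘁ = h(Y)(-dim Y)` -/
  dual : ∀ Y, Nonempty ((h Y)ᘁ ≅ h Y ⊗ W.T (-dim Y))
  /-- `h(Y)(1)` is a direct summand of the motive of a variety of dimension `dim Y + 2`: of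
  `Y × P²`, and if `dim Y = 0` of an iterated blow-up of `P²` in closed points -/
  lift : ∀ Y, ∃ V, dim V = dim Y + 2 ∧ Nonempty (Retract (h Y ⊗ W.T 1) (h V))

/-- Smooth projective curves of genus `≥ 1` over `k`, with a base point (not necessarily all of
them). -/
structure Curves {W : MotivicHomology C F} (V : Varieties W) where
  Curve : Type u
  /-- the motive `h₁(X)` -/
  h₁ : Curve → C
  /-- `h₁(X)` has homology in degree `1` only -/
  odd : ∀ (X : Curve) (j : ℤ), j ≠ 1 → Subsingleton (Hj W (h₁ X) j)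
  /-- `h₁(X)` is self-dual: `h₁(X)ᘁ = h₁(X)(-1)` -/
  dual : ∀ X, Nonempty ((h₁ X)ᘁ ≅ h₁ X ⊗ W.T (-1))
  /-- the variety `Y × X`, if `dim Y > 0`: its motive contains `h(Y) ⊗ h₁(X)` and `h(Y)(1)` -/
  times : ∀ (Y : V.Var) (X : Curve), 0 < V.dim Y → ∃ Z : V.Var, V.dim Z = V.dim Y + 1 ∧
    Nonempty (Retract (V.h Y ⊗ h₁ X) (V.h Z)) ∧ Nonempty (Retract (V.h Y ⊗ W.T 1) (V.h Z))

/-- `CH_l(M)_alg`: the algebraically trivial cycles which are parametrised by the curves `X`. They
are generated by the cycles `Γ_*(z)`, where `z ∈ CH_0(h₁(X))` and `Γ : h₁(X)(l) ⟶ M`. -/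
def Curves.Alg {W : MotivicHomology C F} {V : Varieties W} (E : Curves V) (l : ℤ) (M : C) :
    Submodule ℚ (W.CH l M) :=
  Submodule.span ℚ {γ | ∃ (X : E.Curve) (z : W.T l ⟶ E.h₁ X ⊗ W.T l) (Γ : E.h₁ X ⊗ W.T l ⟶ M),
    γ = z ≫ Γ}

variable (W : MotivicHomology C F) in
/-- The Lefschetz operator `L ⊗ 1 + 1 ⊗ L` of the product polarisation on `Y × Y`, for
`N = h(Y)` and `L : h(Y) ⟶ h(Y)(1)`. -/
def squareL {N : C} (L : N ⟶ N ⊗ W.T 1) : N ⊗ N ⟶ (N ⊗ N) ⊗ W.T 1 :=
  (L ▷ N) ≫ (α_ N (W.T 1) N).hom ≫ (N ◁ (β_ (W.T 1) N).hom) ≫ (α_ N N (W.T 1)).inv +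
    (N ◁ L) ≫ (α_ N N (W.T 1)).inv

/-- A member `V` of a pencil of hyperplane sections of `Y`, `N = h(Y)`, `n = dim Y`,
`L : h(Y) ⟶ h(Y)(1)` the intersection with a hyperplane: either a smooth member, or the resolution
of a member with one node, obtained by blowing up the node. `a` is the push-forward
`h(V) ⟶ h(Y)`, `b` the pull-back `h(Y) ⟶ h(V)(1)`, and `e` acts on `H_j(V)`, `j > n`, as the
projector with kernel the classes supported on the exceptional quadric (`e = 1` if `V` is a smooth
member); these classes die in `h(Y)`. -/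
structure Member (W : MotivicHomology C F) (N : C) (n : ℤ) (L : N ⟶ N ⊗ W.T 1) (V : C) where
  /-- push-forward -/
  a : V ⟶ N
  /-- pull-back -/
  b : N ⟶ V ⊗ W.T 1
  /-- projection formula -/
  b_a : b ≫ (a ▷ W.T 1) = L
  e : V ⟶ V
  /-- the exceptional quadric is contracted to a point of `Y` -/
  e_a : e ≫ a = a
  /-- weak Lefschetz theorem: `H_j(V)`, `j > n`, is generated by the pull-back of `H_(j+2)(Y)`
  and the classes supported on the exceptional quadric -/
  split : ∀ j, n + 2 < j → ∀ x : Hj W (V ⊗ W.T 1) j, ∃ y : Hj W N j,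
    act W (e ▷ W.T 1) j x = act W b j y

end one

section two

variable {C : Type u} [Category.{v} C] [Preadditive C] [Linear ℚ C]
  [MonoidalCategory C] [SymmetricCategory C] [RigidCategory C] {F : Type w} [Field F]
  {C' : Type u} [Category.{v} C'] [Preadditive C'] [Linear ℚ C']
  [MonoidalCategory C'] [SymmetricCategory C'] [RigidCategory C']

/-- Every endomorphism of `Q` factors as `Q ⟶ Φ(M) ⟶ Φ(N) ⟶ Q`, where the morphism in the
middle is defined over the base, up to a multiple of the identity. -/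
def GenericCorr (Φ : C ⥤ C') {M N : C} {Q : C'} (a : Q ⟶ Φ.obj M) (b : Φ.obj N ⟶ Q) : Prop :=
  ∀ φ : Q ⟶ Q, ∃ (g : M ⟶ N) (c : ℚ), φ = a ≫ Φ.map g ≫ b + c • 𝟙 _

/-- `X` is the generic hyperplane section of `Y`, over the function field `K` of the dual
projective space; `C`, `C'` stand for the motives over `k` and `K`, `Φ` for the base change
functor, `N = h(Y)`, `n = dim Y`, `L : h(Y) ⟶ h(Y)(1)` for the intersection with a hyperplane and
`P = h(X)`. -/
structure HyperplaneSection (W : MotivicHomology C F) (W' : MotivicHomology C' F) (Φ : C ⥤ C')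
    (N : C) (n : ℤ) (L : N ⟶ N ⊗ W.T 1) (P : C') where
  /-- the Gysin map `h(X)(1) ⟶ h(Y)(1)` -/
  a : P ⊗ W'.T 1 ⟶ Φ.obj (N ⊗ W.T 1)
  /-- the restriction `h(Y) ⟶ h(X)(1)` -/
  b : Φ.obj N ⟶ P ⊗ W'.T 1
  /-- projection formula -/
  b_a : b ≫ a = Φ.map L
  /-- weak Lefschetz theorem: `H_j(Y) ⟶ H_(j-2)(X)(1)` is injective for `j > n` -/
  inj_b : ∀ j, n < j → Function.Injective (act W' b j)
  /-- weak Lefschetz theorem: `H_j(Y) ⟶ H_(j-2)(X)(1)` is surjective for `j > n + 1` -/
  surj_b : ∀ j, n + 1 < j → Function.Surjective (act W' b j)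
  /-- weak Lefschetz theorem: `H_(j-2)(X)(1) ⟶ H_(j-2)(Y)(1)` is surjective for `j ≤ n + 1` -/
  surj_a : ∀ j, j ≤ n + 1 → Function.Surjective (act W' a j)
  /-- there is vanishing homology in the middle dimension `n - 1` of `X` -/
  vanishing : ¬ Function.Injective (act W' a (n + 1))
  /-- every self-correspondence of `X` is induced by a correspondence of `Y` defined over `k`, up
  to a multiple of the diagonal (`X × X` is the generic fibre of a family which outside the
  diagonal is a fibre product of projective bundles over `Y × Y`) -/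
  generic : GenericCorr Φ a b

/-- The functor `Φ` (base change from `k` to `K`) commutes with the product with a curve `X` over
`k`: `Φ(M ⊗ h₁(X)) = Φ(M) ⊗ h₁(X_K)`, naturally in `M`. Here `h = h₁(X)` and `h' = h₁(X_K)`. -/
structure Carries (Φ : C ⥤ C') (h : C) (h' : C') where
  iso : ∀ M : C, Φ.obj (M ⊗ h) ≅ Φ.obj M ⊗ h'
  natural : ∀ {M N : C} (g : M ⟶ N),
    Φ.map (g ▷ h) ≫ (iso N).hom = (iso M).hom ≫ (Φ.map g ▷ h')

/-- The generic point of a curve `X` over `k`, with base point `x₀`: `C`, `C'` stand for the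
motives over `k` and over an algebraic closure `K` of `k(X)`, `Φ` for the base change functor,
`h = h₁(X)` and `h' = h₁(X_K)`. -/
structure GenericPoint (W : MotivicHomology C F) (W' : MotivicHomology C' F) (Φ : C ⥤ C')
    (h : C) (h' : C') where
  /-- `Φ` commutes with the product with `X` -/
  car : Carries Φ h h'
  /-- the class of `η - x₀`, where `η` is the generic point -/
  ξ : h' ⟶ W'.T 1
  /-- if the restriction of `α ∈ CH_l(M ⊗ h₁(X))` to the generic point is zero, then `α` is
  supported over finitely many points of `X` -/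
  localisation : ∀ (M : C) (l : ℤ) (α : W.CH l (M ⊗ h)),
    Φ.map α ≫ (car.iso M).hom ≫ (Φ.obj M ◁ ξ) = 0 →
      α ∈ Submodule.span ℚ {γ : W.CH l (M ⊗ h) |
        ∃ (i : W.T 0 ⟶ h) (β : W.CH l (M ⊗ W.T 0)), γ = β ≫ (M ◁ i)}

variable {W : MotivicHomology C F} {W' : MotivicHomology C' F}
  {V : Varieties W} {V' : Varieties W'} (E : Curves V) (E' : Curves V')

/-- `Φ` is the base change functor from `k` to `K`: it takes the varieties and the curves over `k`
to varieties and curves over `K`. -/
structure Change (Φ : C ⥤ C') : Prop where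
  bc : Nonempty (BaseChange W W' Φ)
  var : ∀ Y : V.Var, ∃ Y' : V'.Var, V'.dim Y' = V.dim Y ∧ Nonempty (Φ.obj (V.h Y) ≅ V'.h Y')
  curve : ∀ X : E.Curve, ∃ X' : E'.Curve, Nonempty (Carries Φ (E.h₁ X) (E'.h₁ X'))

/-- The generic hyperplane section `X` of `Y`. If `k` is algebraically closed, then there is
localisation: a class on `Y` whose restriction to `X` is zero is supported on finitely many members
of a Lefschetz pencil. -/
def HasSection (closed : Prop) (Y : V.Var) (L : V.h Y ⟶ V.h Y ⊗ W.T 1) : Prop :=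
  ∃ (Φ : C ⥤ C') (X : V'.Var) (S : HyperplaneSection W W' Φ (V.h Y) (V.dim Y) L (V'.h X)),
    Change E E' Φ ∧ V'.dim X + 1 = V.dim Y ∧
    (closed → ∀ (l : ℤ) (α : W.CH l (V.h Y)), Φ.map α ≫ S.b = 0 →
      α ∈ Submodule.span ℚ {γ : W.CH l (V.h Y) | ∃ Z : V.Var, V.dim Z < V.dim Y ∧
        ∃ (m : Member W (V.h Y) (V.dim Y) L (V.h Z)) (ζ : W.CH l (V.h Z)), γ = ζ ≫ m.a})

/-- The generic hyperplane section `X` of `Y × Y`, for the product polarisation. -/
def HasSquareSection (Y : V.Var) (L : V.h Y ⟶ V.h Y ⊗ W.T 1) : Prop :=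
  ∃ (Φ : C ⥤ C') (X : V'.Var), Change E E' Φ ∧
    Nonempty (HyperplaneSection W W' Φ (V.h Y ⊗ V.h Y) (2 * V.dim Y) (squareL W L) (V'.h X))

/-- `K` is an algebraic closure of the function field of the curve `X`. -/
def HasGenericPoint (X : E.Curve) : Prop :=
  ∃ (Φ : C ⥤ C') (X' : E'.Curve), Change E E' Φ ∧
    Nonempty (GenericPoint W W' Φ (E.h₁ X) (E'.h₁ X'))

end two

/-- The category `C` of the Chow motives over a field `k` with a Weil homology `W`, the varieties
`V` and the curves `E`. -/
structure Theory (F : Type w) [Field F] where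
  C : Type u
  [cat : Category.{v} C]
  [pre : Preadditive C]
  [lin : Linear ℚ C]
  [mon : MonoidalCategory C]
  [sym : SymmetricCategory C]
  [mpre : MonoidalPreadditive C]
  [mlin : MonoidalLinear ℚ C]
  [rig : RigidCategory C]
  [sums : HasBinaryBiproducts C]
  [idem : IsIdempotentComplete C]
  W : MotivicHomology C F
  V : Varieties W
  E : Curves V

attribute [instance] Theory.cat Theory.pre Theory.lin Theory.mon Theory.sym Theory.mpre
  Theory.mlin Theory.rig Theory.sums Theory.idem

/-- The Chow motives, the varieties and the curves over all fields. The curves are for example all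
curves of genus `≥ 1` with a base point, or the base changes of one elliptic curve over the prime
field. -/
structure Setting (F : Type w) [Field F] where
  /-- the fields `k` -/
  Fld : Type u
  /-- the motives, the varieties and the curves over `k` -/
  th : Fld → Theory.{w, v, u} F
  /-- the algebraically closed fields -/
  Closed : Fld → Prop
  /-- there is a curve over every algebraically closed field; it has genus `≥ 1`, therefore
  `h₁(X) ⊗ h₁(X)` contains `1(1)` -/
  genus : ∀ k, Closed k → ∃ X : (th k).E.Curve,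
    Nonempty (Retract ((th k).W.T 1) ((th k).E.h₁ X ⊗ (th k).E.h₁ X))
  /-- the algebraic closure of `k` -/
  closure : ∀ k, ∃ (K : Fld) (Φ : (th k).C ⥤ (th K).C), Closed K ∧
    Change (th k).E (th K).E Φ
  /-- For `Y` of dimension `n > 0` there is a projective embedding, with Lefschetz operator `L`,
  such that `L : H_(n+1)(Y) ⟶ H_(n-1)(Y)(1)` is bijective (hard Lefschetz theorem), and such that
  `Y` and `Y × Y` have generic hyperplane sections, with localisation if `k` is algebraically
  closed. -/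
  lefschetz : ∀ (k : Fld) (Y : (th k).V.Var), 0 < (th k).V.dim Y →
    ∃ L : (th k).V.h Y ⟶ (th k).V.h Y ⊗ (th k).W.T 1,
      Function.Bijective (act (th k).W L ((th k).V.dim Y + 1)) ∧
      (∃ K : Fld, HasSection (th k).E (th K).E (Closed k) Y L) ∧
      ∃ K : Fld, HasSquareSection (th k).E (th K).E Y L
  /-- the generic point of a curve `X` over an algebraically closed field `k`, and base change to
  an algebraic closure `K` of `k(X)` -/
  generic : ∀ k, Closed k → ∀ X : (th k).E.Curve, ∃ K : Fld, Closed K ∧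
    HasGenericPoint (th k).E (th K).E X

section conjectures

variable {C : Type u} [Category.{v} C] [Preadditive C] [Linear ℚ C]
  [MonoidalCategory C] [SymmetricCategory C] [RigidCategory C] {F : Type w} [Field F]
  (W : MotivicHomology C F)

/-- Murre's conjectures (A), (B), (C) for all motives over `k`. -/
def MurreABC : Prop := ∀ M : C, MurreA W M ∧ MurreC W M ∧ ∃ D : CK W M, D.MurreB

/-- The endomorphisms of motives which are zero on homology are nilpotent. -/
def NilHom : Prop :=
  ∀ (M : C) (x : M ⟶ M), (∀ j, ZeroH W x j) → ∃ r : ℕ, (· ≫ x)^[r] x = 0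

variable {W} (V : Varieties W)

/-- The sign conjecture for the varieties over `k`: the projector onto the even homology is
algebraic. -/
def SignConj : Prop := ∀ Y : V.Var, ∃ p : V.h Y ⟶ V.h Y,
  (∀ j, Even j → ∀ x, act W p j x = x) ∧ ∀ j, Odd j → ZeroH W p j

/-- (B) for the cycles of dimension `≤ m + 1` or of codimension `≤ m`: for all varieties `Y`, all
direct summands `N` of `h(Y)` and every Chow-Kunneth decomposition of `N`, `CH_l(N_i) = 0` for
`i < 2l`, if `l ≤ m + 1` or `dim Y - l ≤ m`. -/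
def RangeB (m : ℕ) : Prop :=
  ∀ (Y : V.Var) (N : C), Nonempty (Retract N (V.h Y)) → ∀ l : ℤ, (l ≤ m + 1 ∨ V.dim Y ≤ l + m) →
    ∀ (D : CK W N) (i : ℤ), i < 2 * l → D.CH l i = ⊥

/-- (B) for the cycles of dimension `m + 1` and the middle weight on the varieties `Z` of dimension
`2m + 1`: `CH_{m+1}(Z_{2m+1}) = 0` for every Chow-Kunneth decomposition of `h(Z)`. -/
def OddB (m : ℕ) : Prop :=
  ∀ Z : V.Var, V.dim Z = 2 * m + 1 → ∀ D : CK W (V.h Z), D.CH (m + 1) (2 * m + 1) = ⊥

variable {V} in
/-- The algebraic part of (D) for the cycles of dimension `m` on the varieties `Z` of dimension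
`2m`: `CH_m(Z_{2m})_alg = 0` for every Chow-Kunneth decomposition of `h(Z)`. -/
def MiddleAlg (E : Curves V) (m : ℕ) : Prop :=
  ∀ Z : V.Var, V.dim Z = 2 * m → ∀ D : CK W (V.h Z), D.CH m (2 * m) ⊓ E.Alg m (V.h Z) = ⊥

variable {V} in
/-- (B) for the products of the varieties `Z` of dimension `2m` with the curves `X`, for the cycles
of dimension `m + 1` and the middle weight: `CH_{m+1}((h(Z) ⊗ h₁(X))_{2m+1}) = 0` for every
Chow-Kunneth decomposition of `h(Z) ⊗ h₁(X)`. -/
def ProductB (E : Curves V) (m : ℕ) : Prop :=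
  ∀ (Z : V.Var) (X : E.Curve), V.dim Z = 2 * m →
    ∀ D : CK W (V.h Z ⊗ E.h₁ X), D.CH (m + 1) (2 * m + 1) = ⊥

/-- `dim Z = 2m + 1`: if `θ : h(Z) ⟶ h(Z)` is zero on `H_j(Z)` for all `j ≠ 2m + 1`, then `θ` is
locally nilpotent on `CH_{m+1}(Z)`. -/
def OddNil (m : ℕ) : Prop :=
  ∀ Z : V.Var, V.dim Z = 2 * m + 1 → ∀ θ : V.h Z ⟶ V.h Z, (∀ j, j ≠ 2 * (m : ℤ) + 1 → ZeroH W θ j) →
    ∀ α : W.CH (m + 1) (V.h Z), ∃ r : ℕ, (· ≫ θ)^[r] α = 0

variable {V} in
/-- `dim Z = 2m`: if `θ : h(Z) ⟶ h(Z)` is zero on `H_j(Z)` for all `j ≠ 2m`, then `θ` is locally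
nilpotent on `CH_m(Z)_alg`. -/
def MiddleAlgNil (E : Curves V) (m : ℕ) : Prop :=
  ∀ Z : V.Var, V.dim Z = 2 * m → ∀ θ : V.h Z ⟶ V.h Z, (∀ j, j ≠ 2 * (m : ℤ) → ZeroH W θ j) →
    ∀ α ∈ E.Alg m (V.h Z), ∃ r : ℕ, (· ≫ θ)^[r] α = 0

end conjectures

namespace Setting

variable {F : Type w} [Field F] (G : Setting.{w, v, u} F)

/-- Murre's conjectures (A), (B), (C) for all motives over all fields. -/
def ABC : Prop := ∀ k, MurreABC (G.th k).W

/-- (A) for all motives over all fields. -/
def ConjA : Prop := ∀ (k : G.Fld) (M : (G.th k).C), MurreA (G.th k).W M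

/-- (B) for all Chow-Kunneth decompositions of all motives over all fields. -/
def ConjB : Prop := ∀ (k : G.Fld) (M : (G.th k).C) (D : CK (G.th k).W M), D.MurreB

/-- (C) for all motives over all fields. -/
def ConjC : Prop := ∀ (k : G.Fld) (M : (G.th k).C), MurreC (G.th k).W M

/-- The sign conjecture for all varieties over all fields. -/
def Sign : Prop := ∀ k, SignConj (G.th k).V

/-- Homologically trivial endomorphisms of motives are nilpotent. -/
def Nilpotent : Prop := ∀ k, NilHom (G.th k).W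

/-- (B) for the cycles of dimension `≤ m + 1` or of codimension `≤ m`, over all fields. -/
def LevelB (m : ℕ) : Prop := ∀ k, RangeB (G.th k).V m

/-- `CH_{m+1}(Z_{2m+1}) = 0` over algebraically closed fields -/
def Odd (m : ℕ) : Prop := ∀ k, G.Closed k → OddB (G.th k).V m

/-- `CH_m(Z_{2m})_alg = 0` over algebraically closed fields -/
def Alg (m : ℕ) : Prop := ∀ k, G.Closed k → MiddleAlg (G.th k).E m

/-- `CH_{m+1}((h(Z) ⊗ h₁(X))_{2m+1}) = 0` over algebraically closed fields -/
def Product (m : ℕ) : Prop := ∀ k, G.Closed k → ProductB (G.th k).E m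

/-- nilpotence on `CH_{m+1}(Z_{2m+1})` over algebraically closed fields -/
def OddN (m : ℕ) : Prop := ∀ k, G.Closed k → OddNil (G.th k).V m

/-- nilpotence on `CH_m(Z_{2m})_alg` over algebraically closed fields -/
def AlgN (m : ℕ) : Prop := ∀ k, G.Closed k → MiddleAlgNil (G.th k).E m

end Setting

end Pool.Agent.MSet
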