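import Pool.Agent.MAlg.Final

/-!
# Lower dimensions
-/

set_option autoImplicit false
set_option linter.unusedSectionVars false

open CategoryTheory MonoidalCategory Limits
open Pool.Agent.Helper15.Murre Pool.Agent.Helper58.MAD Pool.Agent.Helper90.MAD Pool.Agent.Mid
open Pool.Agent.AbAlg

universe w v u

namespace Pool.Agent.MAlg

variable {F : Type w} [Field F] {G : Geometry.{w, v, u} F}

/-- `h(Y)(1)` is a direct summand of the motive of a variety of dimension `dim Y + 2` -/
def Lift (G : Geometry.{w, v, u} F) : Prop :=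
  ∀ (k : G.Fld) (Y : G.Var k), ∃ V : G.Var k, G.dim V = G.dim Y + 2 ∧
    Nonempty (Retract (G.h Y ⊗ (G.mot k).W.T 1) (G.h V))

private theorem kill_down {k : G.Fld} {Z : Fam (G.mot k).W} {M N : (G.mot k).C} {l a : ℤ}
    (R : Retract (M ⊗ (G.mot k).W.T 1) N)
    (h : Kill Z N (l + 1) (fun j => j = a + 2)) : Kill Z M l (fun j => j = a) := by
  have h1 := Kill.ofIso (untwist (G.mot k).W M 1).symm ((h.retract R).twist (-1))
  have h2 : l + 1 + -1 = l := by ring
  rw [h2] at h1
  exact h1.mono (fun j hj => by omega)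

theorem crit_down (h : Lift G) {m : ℕ} (hC : Crit G (m + 1)) : Crit G m := by
  intro k Y hk hY
  obtain ⟨V, hV, ⟨R⟩⟩ := h k Y
  have h1 := hC k V hk (by rw [hV, hY]; push_cast; ring)
  have h2 : (((m + 1 : ℕ) : ℤ) + 1) = (m : ℤ) + 1 + 1 := by push_cast; ring
  rw [h2] at h1
  exact kill_down R (h1.mono (fun j hj => by push_cast; omega))

theorem crit_le (h : Lift G) {m : ℕ} (hC : Crit G m) : ∀ j ≤ m, Crit G j := by
  induction m with
  | zero =>
    intro j hj
    obtain rfl : j = 0 := by omega
    exact hC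
  | succ m ih =>
    intro j hj
    rcases Nat.lt_or_ge m j with h1 | h1
    · obtain rfl : j = m + 1 := by omega
      exact hC
    · exact ih (crit_down h hC) j h1

section levels

variable (hS : Sign G) (hN : Nilpotent G)

include hS hN

theorem alg_down (h : Lift G) (E : Families G) {m : ℕ} (hM : MiddleAlg E (m + 1)) :
    MiddleAlg E m := by
  intro k Z hk hZ D
  obtain ⟨V, hV, ⟨R⟩⟩ := h k Z
  have h1 := alg_mid E hS hN hM hk V (by rw [hV, hZ]; push_cast; ring)
  have h2 : (((m + 1 : ℕ) : ℤ)) = (m : ℤ) + 1 := by push_cast; ring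
  rw [h2] at h1
  have h3 : Kill (algF E k) (G.h Z) m (fun j => j = 2 * (m : ℤ)) :=
    kill_down R (h1.mono (fun j hj => by omega))
  rw [eq_bot_iff]
  rintro α ⟨h4, h5⟩
  have h6 := h3 (D.p (2 * m)) (D.idem _) (fun j hj x hx => by
    rw [D.homology _ _ x hx, if_neg hj]) α h5
  rw [D.mem_CH.1 h4] at h6
  simpa using h6

theorem alg_le (h : Lift G) (E : Families G) {m : ℕ} (hM : MiddleAlg E m) :
    ∀ j ≤ m, MiddleAlg E j := by
  induction m with
  | zero =>
    intro j hj
    obtain rfl : j = 0 := by omega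
    exact hM
  | succ m ih =>
    intro j hj
    rcases Nat.lt_or_ge m j with h1 | h1
    · obtain rfl : j = m + 1 := by omega
      exact hM
    · exact ih (alg_down hS hN h E hM) j h1

/-- **the levels**: `(B)` in the range `m` is one critical case -/
theorem level_iff (h : Lift G) (m : ℕ) : RangeB G m ↔ OddB G m := by
  constructor
  · intro h1
    exact (level_odd hS hN m).1 h1 m le_rfl
  · intro h1
    exact rangeB_of_crit hS hN m (crit_le h (crit_of_odd hS hN h1))

theorem level_of_alg_succ (h : Lift G) (E : Families G) (m : ℕ) (hM : MiddleAlg E (m + 1)) :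
    RangeB G m :=
  level_of_alg hS hN E m (alg_le hS hN h E hM)

theorem alg_succ_of_level (E : Families G) (m : ℕ) (hM : RangeB G (m + 1)) :
    MiddleAlg E (m + 1) :=
  alg_of_level hS hN E (m + 1) hM (m + 1) (by omega) le_rfl

end levels

end Pool.Agent.MAlg
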