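import Pool.Agent.MSet.Conv

/-!
# Murre's conjectures (A), (B), (C) and algebraically trivial cycles of the middle weight
-/

set_option autoImplicit false

open Pool.Agent.Helper15.Murre

universe w v u

namespace Pool.Agent.MSet.Setting

variable {F : Type w} [Field F] (G : Setting.{w, v, u} F)

theorem levels (hS : G.Sign) (hN : G.Nilpotent) (m : ℕ) :
    (G.LevelB m ↔ G.Odd m) ∧ (G.Alg m ↔ G.Product m) ∧ (G.LevelB (m + 1) → G.Alg (m + 1)) ∧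
      (G.Alg (m + 1) → G.LevelB m) := by
  have hS' := G.sign_iff.1 hS
  have hN' := G.nilpotent_iff.1 hN
  refine ⟨?_, ?_, ?_, ?_⟩
  · rw [levelB_iff, odd_iff]
    exact MAlg.level_iff hS' hN' G.lift m
  · rw [alg_iff, product_iff]
    exact ⟨MAlg.prodB_of_middleAlg hS' hN' G.lift G.toFamilies,
      MAlg.middleAlg_of_prodB G.toFamilies⟩
  · intro h
    rw [alg_iff]
    exact MAlg.alg_succ_of_level hS' hN' G.toFamilies m ((G.levelB_iff _).1 h)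
  · intro h
    rw [levelB_iff]
    exact MAlg.level_of_alg_succ hS' hN' G.lift G.toFamilies m ((G.alg_iff _).1 h)

theorem tfae : List.TFAE [
    G.ABC,
    G.ConjA ∧ G.ConjB,
    G.ConjA ∧ G.ConjC,
    G.ConjA ∧ ∀ m : ℕ, G.Odd m,
    G.ConjA ∧ ∀ m : ℕ, G.Alg m,
    G.ConjA ∧ ∀ m : ℕ, G.Product m,
    G.Sign ∧ ∀ m : ℕ, G.OddN m,
    G.Sign ∧ ∀ m : ℕ, G.AlgN m] := by
  have h := MAlg.tfae G.poincare G.toFamilies
  simp only [← G.abc_iff, ← G.conjA_iff, ← G.sign_iff, ← G.odd_iff, ← G.alg_iff, ← G.oddN_iff,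
    ← G.algN_iff] at h
  have hB : G.ConjA → G.ConjC → G.ABC ∧ G.ConjB := by
    intro hA hC
    refine ⟨fun k M => ?_, fun k M D => murreB_of_murreC (hC k) D⟩
    obtain ⟨D⟩ := hA k M
    exact ⟨⟨D⟩, hC k M, D, murreB_of_murreC (hC k) D⟩
  tfae_have 1 → 3 := fun h1 => ⟨fun k M => (h1 k M).1, fun k M => (h1 k M).2.1⟩
  tfae_have 3 → 2 := fun h1 => ⟨h1.1, (hB h1.1 h1.2).2⟩
  tfae_have 2 → 1 := by
    rintro ⟨h1, h2⟩ k M
    obtain ⟨D⟩ := h1 k M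
    exact ⟨⟨D⟩, murreC_of_murreB (h2 k), D, h2 k M D⟩
  tfae_have 1 ↔ 4 := h.out 0 1
  tfae_have 1 ↔ 5 := h.out 0 2
  tfae_have 2 → 6 := by
    rintro ⟨h1, h2⟩
    refine ⟨h1, fun m k _ Z X _ D => ?_⟩
    exact h2 k _ D (m + 1) (2 * m + 1) (by omega)
  tfae_have 6 → 5 := fun h1 => ⟨h1.1, fun m =>
    (G.alg_iff m).2 (MAlg.middleAlg_of_prodB G.toFamilies ((G.product_iff m).1 (h1.2 m)))⟩
  tfae_have 1 ↔ 7 := h.out 0 3
  tfae_have 1 ↔ 8 := h.out 0 4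
  tfae_finish

end Pool.Agent.MSet.Setting
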