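import Pool.Agent.MSet.Main

/-!
# Murre's conjectures (A), (B), (C) and algebraically trivial cycles of the middle weight
-/

open Pool.Agent.MSet

universe w v u

/-- `Setting` is the formal setting: the Chow motives over all fields `k`, the smooth projective
varieties, a family of curves (for example one elliptic curve over the prime field and its base
changes, or all curves with a base point), Poincare duality, base change, and the classical facts
about hyperplane sections and about the generic point of a curve. `CH_l(M)_alg` is generated by the
cycles `Γ_*(z)`, where `z` is a zero-cycle of degree `0` on a curve of the family.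

1. Assume the sign conjecture for all varieties, and that homologically trivial endomorphisms of
motives are nilpotent. Then for every `m`:
* (B) holds for the cycles of dimension `≤ m + 1` and for those of codimension `≤ m` (that is
  `CH_l(N_i) = 0` for `i < 2l`, all varieties `Y`, all direct summands `N` of `h(Y)`, all
  Chow-Kunneth decompositions of `N` and `l ≤ m + 1` or `dim Y - l ≤ m`) if and only if
  `CH_{m+1}(Z_{2m+1}) = 0` for all varieties `Z` of dimension `2m + 1` over algebraically closed
  fields and all Chow-Kunneth decompositions of `h(Z)`;
* `CH_m(Z_{2m})_alg = 0` for all varieties `Z` of dimension `2m` over algebraically closed fields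
  and all Chow-Kunneth decompositions of `h(Z)` if and only if
  `CH_{m+1}((h(Z) ⊗ h₁(X))_{2m+1}) = 0` for all these `Z`, all curves `X` of the family and all
  Chow-Kunneth decompositions of `h(Z) ⊗ h₁(X)`;
* if (B) holds for the cycles of dimension `≤ m + 2` and for those of codimension `≤ m + 1`, then
  `CH_{m+1}(Z_{2m+2})_alg = 0` for all `Z` of dimension `2m + 2`, as above; if this is so, then (B)
  holds for the cycles of dimension `≤ m + 1` and for those of codimension `≤ m`.

2. The following are equivalent:
* Murre's conjectures (A), (B), (C) for all motives over all fields;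
* (A) for all motives, and (B) for all Chow-Kunneth decompositions of all motives;
* (A) and (C) for all motives;
* (A) for all motives, and `CH_{m+1}(Z_{2m+1}) = 0` as in 1. for all `m`;
* (A) for all motives, and `CH_m(Z_{2m})_alg = 0` as in 1. for all `m`;
* (A) for all motives, and `CH_{m+1}((h(Z) ⊗ h₁(X))_{2m+1}) = 0` as in 1. for all `m`;
* the sign conjecture for all varieties, and: if `dim Z = 2m + 1`, the base field is algebraically
  closed and `θ : h(Z) ⟶ h(Z)` is zero on `H_j(Z)` for all `j ≠ 2m + 1`, then `θ` is locally
  nilpotent on `CH_{m+1}(Z)`;
* the sign conjecture for all varieties, and: if `dim Z = 2m`, the base field is algebraically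
  closed and `θ : h(Z) ⟶ h(Z)` is zero on `H_j(Z)` for all `j ≠ 2m`, then `θ` is locally nilpotent
  on `CH_m(Z)_alg`.

So, given (A), each of the conjectures (B) and (C) is equivalent to the part of (D) which concerns
algebraically trivial cycles, and (B) has to be shown only for products with one elliptic curve. -/
theorem Pool.Agent.MSet.MiddleAlgArchive.result {F : Type w} [Field F]
    (G : Setting.{w, v, u} F) :
    (G.Sign → G.Nilpotent → ∀ m : ℕ, (G.LevelB m ↔ G.Odd m) ∧ (G.Alg m ↔ G.Product m) ∧
      (G.LevelB (m + 1) → G.Alg (m + 1)) ∧ (G.Alg (m + 1) → G.LevelB m)) ∧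
    List.TFAE [
      G.ABC,
      G.ConjA ∧ G.ConjB,
      G.ConjA ∧ G.ConjC,
      G.ConjA ∧ ∀ m : ℕ, G.Odd m,
      G.ConjA ∧ ∀ m : ℕ, G.Alg m,
      G.ConjA ∧ ∀ m : ℕ, G.Product m,
      G.Sign ∧ ∀ m : ℕ, G.OddN m,
      G.Sign ∧ ∀ m : ℕ, G.AlgN m] :=
  ⟨fun hS hN m => G.levels hS hN m, G.tfae⟩
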